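import Pool.Agent.KS6_79.AU.M

/-!
MP_7de2ad_al, Q2: every automatic structure can be replaced by a prefix-closed one with uniqueness,
over a generating set which contains any prescribed finite family, such that every relation on the
group that is regular for the old structure is regular for the new one.  In particular biautomatic
groups have prefix-closed biautomatic structures with uniqueness.
-/

set_option autoImplicit false

namespace Pool.Agent.Results.MP_7de2ad_al.AllRelationsPreserved

/-- the evaluation map `π : A^* → G` of a map `f : A → G` -/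
def eval {A : Type} {G : Type*} [Group G] (f : A → G) (w : List A) : G := (w.map f).prod

/-- the padded pair of two words (the shorter word is padded at the end by the symbol `none`) -/
def conv {A : Type} (u v : List A) : List (Option A × Option A) :=
  List.ofFn (fun i : Fin (max u.length v.length) => (u[(i : ℕ)]?, v[(i : ℕ)]?))

/-- the set of pairs `(u, v)` with `R u v` is accepted by a finite state automaton reading both
words synchronously -/
def SyncRegular {A : Type} (R : List A → List A → Prop) : Prop :=
  Language.IsRegular ({p | ∃ u v, R u v ∧ p = conv u v} : Language (Option A × Option A))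

/-- `(A, L)` is an automatic structure on `G` (with respect to the map `f : A → G`) -/
structure IsAutomaticStructure {A : Type} {G : Type*} [Group G] (f : A → G) (L : Language A) :
    Prop where
  finite_alphabet : Finite A
  generates : Submonoid.closure (Set.range f) = ⊤
  regular : L.IsRegular
  onto : ∀ g : G, ∃ w ∈ L, eval f w = g
  equality : SyncRegular (fun u v => u ∈ L ∧ v ∈ L ∧ eval f u = eval f v)
  multiplication : ∀ x : A, SyncRegular (fun u v => u ∈ L ∧ v ∈ L ∧ eval f u * f x = eval f v)

/-- `(A, L)` is a biautomatic structure: left multiplication by letters is regular as well -/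
def IsBiautomaticStructure {A : Type} {G : Type*} [Group G] (f : A → G) (L : Language A) : Prop :=
  IsAutomaticStructure f L ∧
    ∀ x : A, SyncRegular (fun u v => u ∈ L ∧ v ∈ L ∧ f x * eval f u = eval f v)

theorem conv1 {B : Type} (R : List B → List B → Prop) :
    SyncRegular R ↔ (Pool.Agent.H21.Reg.Ext R).IsRegular := by
  rw [← Pool.Agent.H21.Tree.can_iff]
  constructor
  · rintro ⟨σ, hσ, M, hM⟩
    exact ⟨σ, inferInstance, M, fun p => by rw [hM]; rfl⟩
  · rintro ⟨σ, hσ, M, hM⟩
    exact ⟨σ, Fintype.ofFinite σ, M, Set.ext fun p => hM p⟩

/-- Let `(A, L)` be an automatic structure on the group `G` and let `c : C → G` be a finite family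
of elements.  There is an automatic structure `(B, L')` on `G` which is prefix-closed and has the
uniqueness property, such that
* each element of the family is the image of a letter of `B`;
* for every binary relation `R` on `G` such that the set of the pairs `(u, v)` of words of `L` with
  `R (π u) (π v)` is accepted by a synchronous automaton, the same holds for `(B, L')`;
* if `(A, L)` is biautomatic, then so is `(B, L')`. -/
theorem result (G : Type*) [Group G] (A : Type) (f : A → G) (L : Language A)
    (h : IsAutomaticStructure f L) (C : Type) [Finite C] (c : C → G) :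
    ∃ (B : Type) (g : B → G) (L' : Language B), IsAutomaticStructure g L' ∧
      (∀ u v : List B, u ++ v ∈ L' → u ∈ L') ∧ Set.BijOn (eval g) L' Set.univ ∧
      (∀ x : C, ∃ b : B, g b = c x) ∧
      (∀ R : G → G → Prop,
        SyncRegular (fun u v => u ∈ L ∧ v ∈ L ∧ R (eval f u) (eval f v)) →
        SyncRegular (fun u v => u ∈ L' ∧ v ∈ L' ∧ R (eval g u) (eval g v))) ∧
      (IsBiautomaticStructure f L → IsBiautomaticStructure g L') := by
  have := h.finite_alphabet
  have hE : Pool.Agent.H21.Tree.IsAut f L :=
    ⟨h.regular, h.onto, (conv1 _).1 h.equality, fun b => (conv1 _).1 (h.multiplication b)⟩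
  obtain ⟨B, hB, g, L', k1, k2, k3, k4, k5, k6⟩ := Pool.Agent.KS6_79.AU.main₁ f L hE c
  have hR : ∀ R : G → G → Prop,
      SyncRegular (fun u v => u ∈ L ∧ v ∈ L ∧ R (eval f u) (eval f v)) →
      SyncRegular (fun u v => u ∈ L' ∧ v ∈ L' ∧ R (eval g u) (eval g v)) :=
    fun R hR => (conv1 _).2 (k3 R ((conv1 _).1 hR))
  have hA : IsAutomaticStructure g L' := by
    refine ⟨hB, ?_, k1, k2, hR (fun x y => x = y) h.equality, fun b =>
      hR (fun x y => x * g b = y) ((conv1 _).2 (Pool.Agent.H21.Tree.mulReg hE (g b)))⟩
    rw [Submonoid.eq_top_iff']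
    intro x
    obtain ⟨w, -, rfl⟩ := k2 x
    apply Submonoid.list_prod_mem
    intro y hy
    obtain ⟨b, -, rfl⟩ := List.mem_map.1 hy
    exact Submonoid.subset_closure ⟨b, rfl⟩
  refine ⟨B, g, L', hA, k4, ?_, k6, hR, fun hb => ⟨hA, fun b => ?_⟩⟩
  · refine ⟨fun _ _ => Set.mem_univ _, fun u hu v hv he => k5 u hu v hv he, fun x _ => ?_⟩
    obtain ⟨w, hw, rfl⟩ := k2 x
    exact ⟨w, hw, rfl⟩
  · exact hR (fun x y => g b * x = y) ((conv1 _).2
      (Pool.Agent.KS6_79.AU.mulRegL hE (fun a => (conv1 _).1 (hb.2 a)) (g b)))

end Pool.Agent.Results.MP_7de2ad_al.AllRelationsPreserved
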